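import Pool.Agent.helper12.DD.Spec

/-!
# Project dd: KPC
-/

set_option autoImplicit false
open Pool.Agent.helper49.Blk
namespace Pool.Agent.DD

theorem KPC_cast {G E : Type} [Group G] [Group E] (p : ℕ) (M : Ideal (integralClosure ℤ ℂ))
    (ι : G →* E) (χ : G → ℂ) {N N' : Subgroup G} (hN : N = N') {S S' : Set (Subgroup G)}
    (hS : S = S') (d : ℕ) (U : Subgroup E) :
    (kset p M ι χ N S d U).ncard = (kset p M ι χ N' S' d U).ncard := by
  subst hN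
  subst hS
  rfl

theorem KPC_mem (hDDM : DDM_stmt) {G H : Type} [Group G] [Group H] (f : Subgroup G → Subgroup H)
    (P₀ : Subgroup G) (C : List (Subgroup G)) (P : Subgroup H) :
    P ∈ f P₀ :: dd (f P₀) (C.map f) ↔ P ∈ (P₀ :: C).map f := by
  rw [hDDM, List.map_cons]

theorem KPC_image (hDDM : DDM_stmt) {G H : Type} [Group G] [Group H]
    (f : Subgroup G → Subgroup H) (P₀ : Subgroup G) (C : List (Subgroup G)) :
    f '' {P | P ∈ P₀ :: C} = {P | P ∈ f P₀ :: dd (f P₀) (C.map f)} := by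
  ext P
  rw [Set.mem_ofPred_eq, KPC_mem hDDM, List.mem_map]
  rfl

theorem KPC (hKKP : KKP_stmt) (hNCP : NCP_stmt) (hDDM : DDM_stmt) : KPC_stmt := by
  intro p hp M A B EA EB _ _ _ _ _ _ ιA ιB hA hB χ₁ hχ₁ χ₂ hχ₂ P₀ C hC
  have h1 : NC (P₀ :: C) = (NC ((P₀ :: C).map p1)).prod (NC ((P₀ :: C).map p2)) :=
    hNCP.2 A B (P₀ :: C) hC
  have h2 : NC ((P₀ :: C).map p1) = NC (p1 P₀ :: dd (p1 P₀) (C.map p1)) :=
    hNCP.1 A _ _ fun P => (KPC_mem hDDM p1 P₀ C P).symm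
  have h3 : NC ((P₀ :: C).map p2) = NC (p2 P₀ :: dd (p2 P₀) (C.map p2)) :=
    hNCP.1 B _ _ fun P => (KPC_mem hDDM p2 P₀ C P).symm
  rw [h2, h3] at h1
  constructor
  · intro d U₁ U₂
    unfold kC
    rw [KPC_cast p M (ιA.prodMap ιB) (ot χ₁ χ₂) h1 rfl d (U₁.prod U₂),
      hKKP p hp M A B EA EB ιA ιB hA hB χ₁ hχ₁ χ₂ hχ₂ {P | P ∈ P₀ :: C} hC]
    refine Finset.sum_congr rfl fun ij _ => ?_
    rw [KPC_image hDDM p1 P₀ C, KPC_image hDDM p2 P₀ C]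
  · rw [h1, Nat.card_congr (Subgroup.prodEquiv _ _).toEquiv, Nat.card_prod]

end Pool.Agent.DD
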